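import Pool.Agent.Helper486.Final
import Pool.Agent.Helper486.Lin

namespace Pool.Agent.Results.MP_249bfd_co.NoHamiltonianSphere

open Metric Set Pool.Agent.Helper486.Ham Pool.Agent.Helper486.Cell

/-- Question Q1 has a negative answer, already for `d = 3`: there is a finite set `T` in `ℝ³`
(the stereographic image of the 600 vertices of the regular 120-cell), not contained in a plane
and with `H(T')` four-dimensional, such that no subcomplex of the Delaunay complex `D(T)` which
is homeomorphic to the 2-sphere has all points of `T` as vertices. -/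
theorem result : ∃ T : Finset (Sp 3), Spans (T : Set (Sp 3)) ∧
    Spans (sigma '' (T : Set (Sp 3))) ∧
    ¬ ∃ K : Set (Set (Sp 4)), IsHamiltonianSphere T K := by
  refine ⟨TT, span_TT, span_sigma_TT, ?_⟩
  rintro ⟨K, hsub, hclosed, htop, hvert⟩
  refine SData.IsSph.false (D := cell) (K := K) ⟨?_, hclosed, htop, ?_⟩ cell_nums NN_inj
  · intro B hB
    have h := hsub hB
    rw [← hull_TT]
    exact h
  · intro i
    have h1 : tau (vv i) ∈ TT := by simp [TT]
    have h2 := hvert _ h1
    rw [sigma_tau _ (norm_vv i) (vv_last_ne i)] at h2
    exact h2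

end Pool.Agent.Results.MP_249bfd_co.NoHamiltonianSphere
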