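import Pool.Agent.Helper486.Final

namespace Pool.Agent.Results.MP_249bfd_co.NoShellableSphere

open Metric Set Pool.Agent.Helper486.Ham Pool.Agent.Helper486.Cell

/-- Question Q2 has a negative answer, already for `d = 3`: there is a finite set `T` in `ℝ³`
(the stereographic image of the 600 vertices of the regular 120-cell), not contained in a plane
and with `H(T')` four-dimensional, such that for no Hamiltonian sphere `K` of `D(T)`, no shelling
`L` of `D(T)` and no index `k` the union of the first `k` facets of `L` is a ball whose boundary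
(relative to the 3-sphere `|D(T)|`) is `|K|`. -/
theorem result : ∃ T : Finset (Sp 3), Spans (T : Set (Sp 3)) ∧
    Spans (sigma '' (T : Set (Sp 3))) ∧ ¬ HasShellableHamiltonianSphere T := by
  refine ⟨TT, span_TT, span_sigma_TT, ?_⟩
  rintro ⟨K, L, k, hK, hL, hk, _, hbd⟩
  have hP : hullPolytope TT = cell.P := hull_TT
  rw [hP] at hL
  refine cell.no_boundary cell_nums hL k hk fun i => ?_
  have hmem : ∃ t ∈ TT, sigma t = vv i := by
    have : vv i ∈ sigma '' (TT : Set (Sp 3)) := by
      rw [sigma_TT]; exact ⟨i, rfl⟩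
    obtain ⟨t, ht, hti⟩ := this
    exact ⟨t, by simpa using ht, hti⟩
  obtain ⟨t, ht, hti⟩ := hmem
  have h1 : {sigma t} ∈ K := hK.2.2.2 t ht
  have h2 : vv i ∈ ⋃₀ K := by
    rw [← hti]
    exact ⟨_, h1, rfl⟩
  rw [← hbd] at h2
  have h3 : delaunayComplex TT = {B | IsFace cell.P B ∧ B ≠ cell.P} := by
    unfold delaunayComplex
    rw [hP]
  rw [h3] at h2
  exact h2

end Pool.Agent.Results.MP_249bfd_co.NoShellableSphere
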